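import Pool.Agent.Helper77.OC.St

/-!
# Module FIN of project OC: assembly
-/

set_option autoImplicit false

namespace Pool.Agent.Helper98.OC.FIN

open Pool.Agent.Helper35.PM Pool.Agent.Helper77.HY Pool.Agent.Helper77.OC

theorem lost_le {V : Type} [Finite V] (G : SimpleGraph V) (U : Finset V) (L : V → Finset ℕ)
    (c : V → ℕ) (r : V) : lost G U L c r ≤ dg G r U := by
  unfold lost dg
  refine le_trans (Set.ncard_le_ncard (t := c '' {u : V | u ∈ U ∧ G.Adj r u}) ?_ (Set.toFinite _))
    (Set.ncard_image_le (Set.toFinite _))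
  rintro γ ⟨_, u, hu, hr, rfl⟩
  exact ⟨u, ⟨hu, hr⟩, rfl⟩

theorem card_three {V : Type} {L : V → Finset ℕ} {A : Finset ℕ} (h : OneTwo L A) (v : V) :
    (L v).card = 3 := by
  have h1 := Finset.card_inter_add_card_sdiff (L v) A
  have h2 := h v
  omega

theorem indep {V : Type} [Finite V] (G : SimpleGraph V) (S : Finset V) (h : eN G S = 0) :
    ∀ u ∈ S, ∀ v ∈ S, ¬ G.Adj u v := by
  intro u hu v hv ha
  unfold eN at h
  rw [Set.ncard_eq_zero (Set.toFinite _)] at h
  have h1 : s(u, v) ∈ {e : Sym2 V | e ∈ G.edgeSet ∧ ∀ v ∈ e, v ∈ S} := by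
    refine ⟨ha, ?_⟩
    intro w hw
    rcases Sym2.mem_iff.1 hw with h2 | h2
    · rw [h2]; exact hu
    · rw [h2]; exact hv
  rw [h] at h1
  exact h1

theorem colour {V : Type} (G : SimpleGraph V) (S : Finset V)
    (h : (G.induce ((S : Set V)ᶜ)).Colorable 2) :
    ∃ p : V → Bool, ∀ u, u ∉ S → ∀ v, v ∉ S → G.Adj u v → p u ≠ p v := by
  classical
  obtain ⟨C⟩ := h
  refine ⟨fun v => if h : v ∈ ((S : Set V)ᶜ) then decide (C ⟨v, h⟩ = 0) else true, ?_⟩
  intro u hu v hv ha
  have hu' : u ∈ ((S : Set V)ᶜ) := by simpa using hu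
  have hv' : v ∈ ((S : Set V)ᶜ) := by simpa using hv
  have h1 : C ⟨u, hu'⟩ ≠ C ⟨v, hv'⟩ := C.valid (by simpa using ha)
  simp only [hu', hv', dif_pos]
  intro h2
  rw [decide_eq_decide] at h2
  apply h1
  generalize C ⟨u, hu'⟩ = a at h2 ⊢
  generalize C ⟨v, hv'⟩ = b at h2 ⊢
  revert a b
  decide

theorem main (hExt : StExt) (hMw : StMw) (hBase : StBase) (hFr : StFr) (hB : StB) (hC : StC)
    (hSm : StSm) (_hCnt : StCnt) : Pool.Agent.Helper77.OC.StFin := by
  intro V _ _ G S hPl hTF hcol hyp L A hLA
  obtain ⟨p, hp⟩ := colour G S hcol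
  obtain ⟨W, hSW, hmin, hlt⟩ := hMw V G S
  have hpW : ∀ u ∈ W, u ∉ S → ∀ v ∈ W, v ∉ S → G.Adj u v → p u ≠ p v :=
    fun u _ hu v _ hv ha => hp u hu v hv ha
  have h3 : ∀ v, (L v).card = 3 := card_three hLA
  have key : ∃ c, ColOn G W L c := by
    by_cases h1 : df G W ≤ 1
    · exact hBase V G W hPl hTF h1 L A hLA
    · push Not at h1
      have hforest : Forest G (S : Set V) → ∃ c, ColOn G S L c := by
        intro hF
        exact hFr.1 V G S L hF (fun v _ => by rw [h3 v]; norm_num)
      by_cases hWS : W = S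
      · subst hWS
        rcases hyp with h | h | h
        · rcases hSm V G W hTF h with h2 | h2
          · exact hforest h2
          · exact h2.2 L A hLA
        · exact h.2 L A hLA
        · exact hforest h.2
      · have hss : S ⊂ W := Finset.ssubset_iff_subset_ne.2 ⟨hSW, fun h => hWS h.symm⟩
        have hdf := hlt S (Finset.Subset.refl S) hss
        have hBuse : Forest G (S : Set V) → df G S ≤ df G W + 1 → ∃ c, ColOn G W L c := by
          intro hF hd
          refine hB V G p S W hTF hSW hpW hF ?_ hd L A hLA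
          intro U hU hUW
          have := hlt U hU hUW
          omega
        rcases hyp with h | h | h
        · rcases hSm V G S hTF h with h2 | h2
          · by_cases hd : df G S ≤ df G W + 1
            · exact hBuse h2 hd
            · push Not at hd
              have hdS : df G S = 2 * (S.card : ℤ) - 4 - (eN G S : ℤ) := rfl
              have hc4 : (S.card : ℤ) ≤ 4 := by exact_mod_cast h
              have he0 : (0 : ℤ) ≤ (eN G S : ℤ) := Int.natCast_nonneg _
              have hS4 : S.card = 4 := by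
                have : (S.card : ℤ) = 4 := by omega
                exact_mod_cast this
              have he : eN G S = 0 := by
                have : (eN G S : ℤ) = 0 := by omega
                exact_mod_cast this
              have hW2 : df G W = 2 := by omega
              refine hC V G p S W hSW hpW hS4 (indep G S he) hW2 ?_ L A hLA
              intro U hU hUW
              have := hlt U hU hUW
              omega
          · exfalso
            have hdS : df G S = 2 * (S.card : ℤ) - 4 - (eN G S : ℤ) := rfl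
            have hc4 : (S.card : ℤ) ≤ 4 := by exact_mod_cast h
            have he4 : (4 : ℤ) ≤ (eN G S : ℤ) := by exact_mod_cast h2.1
            omega
        · exfalso
          have hdS : df G S = 2 * (S.card : ℤ) - 4 - (eN G S : ℤ) := rfl
          have h2 : 2 * (S.card : ℤ) ≤ (eN G S : ℤ) + 6 := by exact_mod_cast h.1
          omega
        · have hdS : df G S = 2 * (S.card : ℤ) - 4 - (eN G S : ℤ) := rfl
          have h2 : 2 * (S.card : ℤ) ≤ (eN G S : ℤ) + 7 := by exact_mod_cast h.1
          exact hBuse h.2 (by omega)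
  obtain ⟨c, hc⟩ := key
  haveI : Fintype V := Fintype.ofFinite V
  obtain ⟨c', _, hc'⟩ := hExt V G p L W Finset.univ c (Finset.subset_univ _)
    (fun u _ hu v _ hv ha => hp u (fun h => hu (hSW h)) v (fun h => hv (hSW h)) ha) h3 hc (by
      intro U' hU' _
      have h4 := hmin U' (hSW.trans hU')
      have h5 : ∑ r ∈ U' \ W, (lost G W L c r : ℤ) ≤ ∑ r ∈ U' \ W, (dg G r W : ℤ) :=
        Finset.sum_le_sum (fun r _ => by exact_mod_cast lost_le G W L c r)
      linarith)
  exact ⟨c', fun v => hc'.1 v (Finset.mem_univ v),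
    fun u v ha => hc'.2 u (Finset.mem_univ u) v (Finset.mem_univ v) ha⟩

end Pool.Agent.Helper98.OC.FIN
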